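import Mathlib

set_option autoImplicit false

namespace Pool.Agent.Results.MP_02a275_nt.NimSum

/-- The 2-kernel of a sequence. -/
def kernel (a : ℕ → ℤ) : Set (ℕ → ℤ) :=
  {b | ∃ e r : ℕ, r < 2 ^ e ∧ b = fun n => a (2 ^ e * n + r)}

/-- A sequence is 2-regular if the ℤ-module generated by its 2-kernel is finitely generated. -/
def TwoRegular (a : ℕ → ℤ) : Prop := (Submodule.span ℤ (kernel a)).FG

/-- 2-regular arrays. -/
def TwoRegularArray (c : ℕ → ℕ → ℤ) : Prop :=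
  ∃ s : Finset (ℕ → ℕ → ℤ), ∀ e r t : ℕ, r < 2 ^ e → t < 2 ^ e →
    (fun m n => c (2 ^ e * m + r) (2 ^ e * n + t)) ∈
      Submodule.span ℤ (s : Set (ℕ → ℕ → ℤ))

/-! ### Xor with a power of two -/

lemma xor_add (k X Y : ℕ) (hY : Y < 2 ^ k) :
    (2 ^ (k + 1) * X + Y) ^^^ 2 ^ k = 2 ^ (k + 1) * X + Y + 2 ^ k := by
  have h1 : 2 ^ (k + 1) * X + Y + 2 ^ k = 2 ^ k * (2 * X + 1) + Y := by ring
  have h2 : 2 ^ (k + 1) * X + Y = 2 ^ k * (2 * X) + Y := by ring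
  rw [h1, h2, Nat.two_pow_add_eq_or_of_lt hY, Nat.two_pow_add_eq_or_of_lt hY]
  apply Nat.eq_of_testBit_eq
  intro i
  simp only [Nat.testBit_xor, Nat.testBit_or, Nat.testBit_two_pow_mul, Nat.testBit_two_pow]
  rcases lt_trichotomy i k with h | h | h
  · have h3 : ¬ k ≤ i := by omega
    have h4 : ¬ k = i := by omega
    simp [h3, h4]
  · subst h
    have h5 : Y.testBit i = false := Nat.testBit_lt_two_pow hY
    simp [h5]
  · have h3 : k ≤ i := by omega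
    have h4 : ¬ k = i := by omega
    have h5 : Y.testBit i = false :=
      Nat.testBit_lt_two_pow (lt_of_lt_of_le hY (Nat.pow_le_pow_right (by norm_num) h3))
    obtain ⟨d, hd⟩ : ∃ d, i - k = d + 1 := ⟨i - k - 1, by omega⟩
    simp only [h3, h4, h5, hd, decide_true, decide_false, Bool.or_false, Bool.xor_false,
      Bool.true_and, Nat.testBit_succ]
    congr 1
    omega

lemma xor_sub (k X Y : ℕ) (hY : Y < 2 ^ k) :
    (2 ^ (k + 1) * X + 2 ^ k + Y) ^^^ 2 ^ k = 2 ^ (k + 1) * X + Y := by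
  have h := xor_add k X Y hY
  have h1 : 2 ^ (k + 1) * X + 2 ^ k + Y = 2 ^ (k + 1) * X + Y + 2 ^ k := by ring
  rw [h1, ← h, Nat.xor_assoc, Nat.xor_self, Nat.xor_zero]

/-! ### Finiteness modulo 3 -/

/-- reduction modulo 3 -/
def red (b : ℕ → ℤ) : ℕ → ZMod 3 := fun n => (b n : ZMod 3)

lemma finite_mod {a : ℕ → ℤ} (ha : TwoRegular a) : (red '' kernel a).Finite := by
  obtain ⟨s, hs⟩ := ha
  have hfin : (red '' (s : Set (ℕ → ℤ))).Finite := s.finite_toSet.image red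
  have : Module.Finite (ZMod 3) (Submodule.span (ZMod 3) (red '' (s : Set (ℕ → ℤ)))) :=
    FiniteDimensional.span_of_finite (ZMod 3) hfin
  have : Finite (Submodule.span (ZMod 3) (red '' (s : Set (ℕ → ℤ)))) :=
    Module.finite_of_finite (ZMod 3)
  have hN : (Submodule.span (ZMod 3) (red '' (s : Set (ℕ → ℤ))) : Set (ℕ → ZMod 3)).Finite :=
    Set.toFinite _
  refine hN.subset ?_
  rintro _ ⟨b, hb, rfl⟩
  have hb' : b ∈ Submodule.span ℤ (s : Set (ℕ → ℤ)) := by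
    rw [hs]
    exact Submodule.subset_span hb
  refine Submodule.span_induction (p := fun x _ => red x ∈
    (Submodule.span (ZMod 3) (red '' (s : Set (ℕ → ℤ))))) ?_ ?_ ?_ ?_ hb'
  · intro x hx
    exact Submodule.subset_span ⟨x, hx, rfl⟩
  · have : red 0 = 0 := by
      funext n
      simp [red]
    rw [this]
    exact Submodule.zero_mem _
  · intro x y _ _ hx hy
    have : red (x + y) = red x + red y := by
      funext n
      simp [red]
    rw [this]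
    exact Submodule.add_mem _ hx hy
  · intro z x _ hx
    have : red (z • x) = (z : ZMod 3) • red x := by
      funext n
      simp [red]
    rw [this]
    exact Submodule.smul_mem _ _ hx

/-! ### The two sequences -/

/-- The squares. -/
def sq (n : ℕ) : ℕ := n ^ 2

/-- The largest power of two not exceeding `n` (and `1` for `n = 0`). -/
def pw (n : ℕ) : ℕ := 2 ^ Nat.log 2 n

lemma sq_regular : TwoRegular (fun n => (sq n : ℤ)) := by
  have hfg : (Submodule.span ℤ ({(fun n : ℕ => (n : ℤ) ^ 2), (fun n : ℕ => (n : ℤ)),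
      (fun _ : ℕ => (1 : ℤ))} : Set (ℕ → ℤ))).FG := Submodule.fg_span (Set.toFinite _)
  refine Submodule.FG.of_le hfg ?_
  rw [Submodule.span_le]
  rintro _ ⟨e, r, -, rfl⟩
  have h : (fun n : ℕ => ((sq (2 ^ e * n + r) : ℕ) : ℤ)) =
      ((2 : ℤ) ^ e * 2 ^ e) • (fun n : ℕ => (n : ℤ) ^ 2) +
        ((2 : ℤ) * 2 ^ e * r) • (fun n : ℕ => (n : ℤ)) + ((r : ℤ) ^ 2) • (fun _ : ℕ => (1 : ℤ)) := by
    funext n
    simp only [Pi.add_apply, Pi.smul_apply, smul_eq_mul, sq]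
    push_cast
    ring
  rw [SetLike.mem_coe, h]
  refine Submodule.add_mem _ (Submodule.add_mem _ ?_ ?_) ?_
  · exact Submodule.smul_mem _ _ (Submodule.subset_span (by simp))
  · exact Submodule.smul_mem _ _ (Submodule.subset_span (by simp))
  · exact Submodule.smul_mem _ _ (Submodule.subset_span (by simp))

lemma log_step (e n r : ℕ) (hn : n ≠ 0) (hr : r < 2 ^ e) :
    Nat.log 2 (2 ^ e * n + r) = e + Nat.log 2 n := by
  have h1 := Nat.pow_log_le_self 2 hn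
  have h2 := Nat.lt_pow_succ_log_self (b := 2) (by norm_num) n
  refine Nat.log_eq_of_pow_le_of_lt_pow ?_ ?_
  · rw [pow_add]
    exact (Nat.mul_le_mul_left _ h1).trans (Nat.le_add_right _ _)
  · have h3 : n + 1 ≤ 2 ^ (Nat.log 2 n + 1) := h2
    calc 2 ^ e * n + r < 2 ^ e * n + 2 ^ e := by omega
      _ = 2 ^ e * (n + 1) := by ring
      _ ≤ 2 ^ e * 2 ^ (Nat.log 2 n + 1) := Nat.mul_le_mul_left _ h3
      _ = 2 ^ (e + Nat.log 2 n + 1) := by rw [← pow_add, ← add_assoc]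

lemma pw_regular : TwoRegular (fun n => (pw n : ℤ)) := by
  have hfg : (Submodule.span ℤ ({(fun n : ℕ => (pw n : ℤ)), (fun n : ℕ => if n = 0 then (1 : ℤ) else 0)} :
      Set (ℕ → ℤ))).FG := Submodule.fg_span (Set.toFinite _)
  refine Submodule.FG.of_le hfg ?_
  rw [Submodule.span_le]
  rintro _ ⟨e, r, hr, rfl⟩
  have h : (fun n => ((pw (2 ^ e * n + r) : ℕ) : ℤ)) =
      ((2 : ℤ) ^ e) • (fun n : ℕ => (pw n : ℤ)) +
        ((pw r : ℤ) - 2 ^ e) • (fun n : ℕ => if n = 0 then (1 : ℤ) else 0) := by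
    funext n
    simp only [Pi.add_apply, Pi.smul_apply, smul_eq_mul]
    by_cases hn : n = 0
    · subst hn
      simp [pw]
    · rw [if_neg hn, pw, pw, log_step e n r hn hr, pow_add]
      push_cast
      ring
  rw [SetLike.mem_coe, h]
  refine Submodule.add_mem _ ?_ ?_
  · exact Submodule.smul_mem _ _ (Submodule.subset_span (by simp))
  · exact Submodule.smul_mem _ _ (Submodule.subset_span (by simp))

/-! ### The nim sum is not 2-regular -/

/-- The nim sum. -/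
def nim (n : ℕ) : ℕ := sq n ^^^ pw n

lemma nim_one (u v k : ℕ) (hu : 1 ≤ u) (hv : 1 ≤ v) (hk : 2 ^ k = 16 * u ^ 3 * v) :
    nim (16 * u ^ 3 * v + 8 * u ^ 2 * v + u) + 2 ^ k =
      (16 * u ^ 3 * v + 8 * u ^ 2 * v + u) ^ 2 := by
  have hk1 : 2 ^ (k + 1) = 32 * u ^ 3 * v := by
    rw [pow_succ, hk]
    ring
  have huv : 1 ≤ u ^ 2 * v := Nat.one_le_iff_ne_zero.2 (by positivity)
  have hlt : 8 * u ^ 2 * v + u < 16 * u ^ 3 * v := by
    have h1 : u ^ 2 * v ≤ u ^ 3 * v := by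
      have : u ^ 3 * v = u * (u ^ 2 * v) := by ring
      rw [this]
      exact Nat.le_mul_of_pos_left _ hu
    have h2 : u ≤ u ^ 3 * v := by
      have : u ^ 3 * v = u * (u ^ 2 * v) := by ring
      rw [this]
      exact Nat.le_mul_of_pos_right _ huv
    nlinarith
  have hlog : Nat.log 2 (16 * u ^ 3 * v + 8 * u ^ 2 * v + u) = k := by
    refine Nat.log_eq_of_pow_le_of_lt_pow ?_ ?_
    · rw [hk]
      omega
    · rw [hk1]
      omega
  have hY : u ^ 2 < 2 ^ k := by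
    rw [hk]
    have : u ^ 3 * v = u ^ 2 * (u * v) := by ring
    have h3 : 1 ≤ u * v := Nat.one_le_iff_ne_zero.2 (by positivity)
    have h4 : u ^ 2 ≤ u ^ 3 * v := by
      rw [this]
      exact Nat.le_mul_of_pos_right _ h3
    have h5 : 1 ≤ u ^ 2 := Nat.one_le_iff_ne_zero.2 (by positivity)
    nlinarith
  have hx := xor_sub k (8 * u ^ 3 * v + 8 * u ^ 2 * v + 2 * u * v + u) (u ^ 2) hY
  have e1 : (16 * u ^ 3 * v + 8 * u ^ 2 * v + u) ^ 2 =
      2 ^ (k + 1) * (8 * u ^ 3 * v + 8 * u ^ 2 * v + 2 * u * v + u) + 2 ^ k + u ^ 2 := by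
    rw [hk1, hk]
    ring
  rw [nim, sq, pw, hlog, e1, hx]
  ring

lemma nim_two (u v k : ℕ) (hu : 1 ≤ u) (hv : 1 ≤ v) (hk : 2 ^ k = 64 * u ^ 3 * v ^ 2) :
    nim (64 * u ^ 3 * v ^ 2 + 32 * u ^ 2 * v ^ 2 + 4 * u * v) =
      (64 * u ^ 3 * v ^ 2 + 32 * u ^ 2 * v ^ 2 + 4 * u * v) ^ 2 + 2 ^ k := by
  have hk1 : 2 ^ (k + 1) = 128 * u ^ 3 * v ^ 2 := by
    rw [pow_succ, hk]
    ring
  have huv : 1 ≤ u * v := Nat.one_le_iff_ne_zero.2 (by positivity)
  have a1 : u ^ 2 * v ^ 2 ≤ u ^ 3 * v ^ 2 := by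
    have : u ^ 3 * v ^ 2 = u * (u ^ 2 * v ^ 2) := by ring
    rw [this]
    exact Nat.le_mul_of_pos_left _ hu
  have a2 : u * v ≤ u ^ 2 * v ^ 2 := by
    have : u ^ 2 * v ^ 2 = (u * v) * (u * v) := by ring
    rw [this]
    exact Nat.le_mul_of_pos_left _ huv
  have a3 : 1 ≤ u ^ 2 * v ^ 2 := huv.trans a2
  have hlt : 32 * u ^ 2 * v ^ 2 + 4 * u * v < 64 * u ^ 3 * v ^ 2 := by nlinarith
  have hlog : Nat.log 2 (64 * u ^ 3 * v ^ 2 + 32 * u ^ 2 * v ^ 2 + 4 * u * v) = k := by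
    refine Nat.log_eq_of_pow_le_of_lt_pow ?_ ?_
    · rw [hk]
      omega
    · rw [hk1]
      omega
  have hY : 16 * u ^ 2 * v ^ 2 < 2 ^ k := by
    rw [hk]
    nlinarith
  have hx := xor_add k (32 * u ^ 3 * v ^ 2 + 8 * u * v ^ 2 + 32 * u ^ 2 * v ^ 2 + 4 * u * v
    + 2 * v) (16 * u ^ 2 * v ^ 2) hY
  have e1 : (64 * u ^ 3 * v ^ 2 + 32 * u ^ 2 * v ^ 2 + 4 * u * v) ^ 2 =
      2 ^ (k + 1) * (32 * u ^ 3 * v ^ 2 + 8 * u * v ^ 2 + 32 * u ^ 2 * v ^ 2 + 4 * u * v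
        + 2 * v) + 16 * u ^ 2 * v ^ 2 := by
    rw [hk1]
    ring
  rw [nim, sq, pw, hlog, e1, hx]

/-- The members of the kernel used below, modulo 3. -/
def G (i : ℕ) : ℕ → ZMod 3 :=
  red (fun n => ((nim (2 ^ (2 * i + 1) * n + 2 ^ (2 * i)) : ℕ) : ℤ))

lemma two_pow_even (i : ℕ) : (2 : ZMod 3) ^ (2 * i) = 1 := by
  rw [pow_mul]
  have : (2 : ZMod 3) ^ 2 = 1 := by decide
  rw [this, one_pow]

lemma G_ne (i t : ℕ) : G i ≠ G (i + t + 1) := by
  intro h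
  obtain ⟨u, hu⟩ : ∃ u, u = 2 ^ (2 * i) := ⟨_, rfl⟩
  obtain ⟨v, hv⟩ : ∃ v, v = 2 ^ (2 * t) := ⟨_, rfl⟩
  have hu1 : 1 ≤ u := by rw [hu]; exact Nat.one_le_two_pow
  have hv1 : 1 ≤ v := by rw [hv]; exact Nat.one_le_two_pow
  have h0 := congrFun h (8 * u ^ 2 * v + 4 * u * v)
  have hB : 2 ^ (2 * (i + t + 1)) = 4 * u * v := by
    rw [hu, hv]
    ring
  have n1 : 2 ^ (2 * i + 1) * (8 * u ^ 2 * v + 4 * u * v) + 2 ^ (2 * i) =
      16 * u ^ 3 * v + 8 * u ^ 2 * v + u := by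
    rw [pow_succ, ← hu]
    ring
  have n2 : 2 ^ (2 * (i + t + 1) + 1) * (8 * u ^ 2 * v + 4 * u * v) + 2 ^ (2 * (i + t + 1)) =
      64 * u ^ 3 * v ^ 2 + 32 * u ^ 2 * v ^ 2 + 4 * u * v := by
    rw [pow_succ, hB]
    ring
  have k1 : 2 ^ (2 * (3 * i + t + 2)) = 16 * u ^ 3 * v := by
    rw [hu, hv]
    ring
  have k2 : 2 ^ (2 * (3 * i + 2 * t + 3)) = 64 * u ^ 3 * v ^ 2 := by
    rw [hu, hv]
    ring
  have r1 := nim_one u v _ hu1 hv1 k1
  have r2 := nim_two u v _ hu1 hv1 k2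
  simp only [G, red] at h0
  rw [n1, n2] at h0
  have uu : (u : ZMod 3) = 1 := by
    rw [hu]
    push_cast
    exact two_pow_even i
  have vv : (v : ZMod 3) = 1 := by
    rw [hv]
    push_cast
    exact two_pow_even t
  have s1 := congrArg (fun x : ℕ => (x : ZMod 3)) r1
  have s2 := congrArg (fun x : ℕ => (x : ZMod 3)) r2
  simp only [Nat.cast_add, Nat.cast_mul, Nat.cast_pow, Nat.cast_ofNat, uu, vv, two_pow_even]
    at s1 s2
  simp only [Int.cast_natCast] at h0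
  rw [h0, s2] at s1
  revert s1
  decide

lemma G_inj : Function.Injective G := by
  intro i j h
  rcases lt_trichotomy i j with hij | hij | hij
  · obtain ⟨t, rfl⟩ : ∃ t, j = i + t + 1 := ⟨j - i - 1, by omega⟩
    exact absurd h (G_ne i t)
  · exact hij
  · obtain ⟨t, rfl⟩ : ∃ t, i = j + t + 1 := ⟨i - j - 1, by omega⟩
    exact absurd h.symm (G_ne j t)

lemma G_mem (c : ℕ → ℕ) (hc : c = nim) (i : ℕ) : G i ∈ red '' kernel (fun n => ((c n : ℕ) : ℤ)) := by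
  refine ⟨fun n => ((c (2 ^ (2 * i + 1) * n + 2 ^ (2 * i)) : ℕ) : ℤ), ?_, ?_⟩
  · refine ⟨2 * i + 1, 2 ^ (2 * i), ?_, rfl⟩
    exact Nat.pow_lt_pow_right (by norm_num) (by omega)
  · rw [hc, G]

lemma nim_not_regular' (c : ℕ → ℕ) (hc : c = nim) : ¬ TwoRegular (fun n => ((c n : ℕ) : ℤ)) := by
  intro h
  have hfin := finite_mod h
  have hinf : (red '' kernel (fun n => ((c n : ℕ) : ℤ))).Infinite :=
    Set.infinite_of_injective_forall_mem G_inj (fun i => G_mem c hc i)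
  exact hinf hfin

lemma nim_not_regular : ¬ TwoRegular (fun n => ((sq n ^^^ pw n : ℕ) : ℤ)) :=
  nim_not_regular' (fun n => sq n ^^^ pw n) (funext fun _ => rfl)

lemma diag_regular {c : ℕ → ℕ → ℤ} (hc : TwoRegularArray c) : TwoRegular (fun n => c n n) := by
  obtain ⟨s, hs⟩ := hc
  let D : (ℕ → ℕ → ℤ) →ₗ[ℤ] (ℕ → ℤ) :=
    { toFun := fun c n => c n n
      map_add' := fun _ _ => rfl
      map_smul' := fun _ _ => rfl }
  have hfg : ((Submodule.span ℤ (s : Set (ℕ → ℕ → ℤ))).map D).FG :=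
    (Submodule.fg_span s.finite_toSet).map D
  refine Submodule.FG.of_le hfg ?_
  rw [Submodule.span_le]
  rintro _ ⟨e, r, hr, rfl⟩
  exact ⟨_, hs e r r hr hr, rfl⟩

lemma nim_array_not_regular :
    ¬ TwoRegularArray (fun i j => ((sq i ^^^ pw j : ℕ) : ℤ)) := by
  intro h
  have h2 := diag_regular (c := fun i j => ((sq i ^^^ pw j : ℕ) : ℤ)) h
  exact nim_not_regular h2

/-- There are 2-regular sequences with non-negative integer values whose nim sum is not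
2-regular, and for which the array of nim sums is not 2-regular. -/
theorem result : ∃ a b : ℕ → ℕ, TwoRegular (fun n => (a n : ℤ)) ∧ TwoRegular (fun n => (b n : ℤ)) ∧
    ¬ TwoRegular (fun n => ((a n ^^^ b n : ℕ) : ℤ)) ∧
    ¬ TwoRegularArray (fun i j => ((a i ^^^ b j : ℕ) : ℤ)) :=
  ⟨sq, pw, sq_regular, pw_regular, nim_not_regular, nim_array_not_regular⟩

end Pool.Agent.Results.MP_02a275_nt.NimSum
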